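import Pool.Agent.PDM.Stmts

/-!
# PDM, row BLK: the symbolic block
-/

set_option autoImplicit false

namespace Pool.Agent.PDM.H82

open Pool.Agent.PDN

/-- row BLK -/
theorem blk (app : AppStmt) (opa : OpaStmt) (opb : OpbStmt) (opd : OpdStmt) (ope : OpeStmt) :
    BlkStmt := by
  intro α dz mz db mb M h s D x y z hD hx hy hz
  have h0 := app _ _ _ _ _ _ (app α dz mz db mb M h s) (D - 6)
  unfold St at h0
  have h1 := opa 3 _ _ _ _ h0 0 1 2 (by decide) (by decide)
    [(0, 1, 3), (1, 2, 3), (2, 0, 3)]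
    (fun n => [α + s + D - 3, D - 1, 4, 3].getD n 0) (by decide)
    (by intro n hn; interval_cases n <;> simp <;> omega) (by simp)
  have h2 := opd 4 _ _ _ _ h1 1 2 3 (by decide) (by decide) (by decide) (by decide)
    [(0, 1, 3), (2, 0, 3)] (by decide)
  have h3 := opa 4 _ _ _ _ h2 2 0 3 (by decide) (by decide)
    [(0, 1, 3), (2, 0, 4), (0, 3, 4), (3, 2, 4)]
    (fun n => [α + s + D - 2, D - 1, 5, 4, 3].getD n 0) (by decide)
    (by intro n hn; interval_cases n <;> simp <;> omega) (by simp)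
  have h4 := opa 5 _ _ _ _ h3 0 3 4 (by decide) (by decide)
    [(0, 1, 3), (2, 0, 4), (3, 2, 4), (0, 3, 5), (3, 4, 5), (4, 0, 5)]
    (fun n => [α + s + D - 1, D - 1, 5, 5, 4, 3].getD n 0) (by decide)
    (by intro n hn; interval_cases n <;> simp <;> omega) (by simp)
  have h5 := opa 6 _ _ _ _ h4 4 0 5 (by decide) (by decide)
    [(0, 1, 3), (2, 0, 4), (3, 2, 4), (0, 3, 5), (3, 4, 5), (4, 0, 6), (0, 5, 6), (5, 4, 6)]
    (fun n => [α + s + D, D - 1, 5, 5, 5, 4, 3].getD n 0) (by decide)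
    (by intro n hn; interval_cases n <;> simp <;> omega) (by simp)
  have h6 := opa 7 _ _ _ _ h5 4 0 6 (by decide) (by decide)
    [(0, 1, 3), (2, 0, 4), (3, 2, 4), (0, 3, 5), (3, 4, 5), (0, 5, 6), (5, 4, 6),
      (4, 0, 7), (0, 6, 7), (6, 4, 7)]
    (fun n => [α + s + D + 1, D - 1, 5, 5, 6, 4, 4, 3].getD n 0) (by decide)
    (by intro n hn; interval_cases n <;> simp <;> omega) (by simp)
  have h7 := opa 8 _ _ _ _ h6 0 6 7 (by decide) (by decide)
    [(0, 1, 3), (2, 0, 4), (3, 2, 4), (0, 3, 5), (3, 4, 5), (0, 5, 6), (5, 4, 6),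
      (4, 0, 7), (6, 4, 7), (0, 6, 8), (6, 7, 8), (7, 0, 8)]
    (fun n => [α + s + D + 2, D - 1, 5, 5, 6, 4, 5, 4, 3].getD n 0) (by decide)
    (by intro n hn; interval_cases n <;> simp <;> omega) (by simp)
  have h8 := opd 9 _ _ _ _ h7 6 7 8 (by decide) (by decide) (by decide) (by decide)
    [(0, 1, 3), (2, 0, 4), (3, 2, 4), (0, 3, 5), (3, 4, 5), (0, 5, 6), (5, 4, 6),
      (4, 0, 7), (6, 4, 7), (0, 6, 8), (7, 0, 8)] (by decide)
  have h9 := opb 9 _ _ _ _ h8 0 8 7 6 (D - 3) (by decide) (by decide) (by decide)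
    [(0, 1, 3), (2, 0, 4), (3, 2, 4), (0, 3, 5), (3, 4, 5), (0, 5, 6), (5, 4, 6),
      (4, 0, 7), (6, 4, 7)]
    (fun n => [α + s + 2 * D - 1, D - 1, 5, 5, 6, 4, 6, 5, D].getD n 0) (by decide)
    (by intro n hn; interval_cases n <;> simp <;> omega)
  have h10 := opb 9 _ _ _ _ h9 0 3 5 1 (D - 7) (by decide) (by decide) (by decide)
    [(2, 0, 4), (3, 2, 4), (3, 4, 5), (0, 5, 6), (5, 4, 6), (4, 0, 7), (6, 4, 7)]
    (fun n => [α + s + 3 * D - 8, D, 5, D - 2, 6, 5, 6, 5, D].getD n 0) (by decide)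
    (by intro n hn; interval_cases n <;> simp <;> omega)
  have h11 := opb 9 _ _ _ _ h10 4 2 0 3 (x - 5) (by decide) (by decide) (by decide)
    [(3, 4, 5), (0, 5, 6), (5, 4, 6), (4, 0, 7), (6, 4, 7)]
    (fun n => [α + s + 3 * D - 7, D, x, D - 1, x + 1, 5, 6, 5, D].getD n 0) (by decide)
    (by intro n hn; interval_cases n <;> simp <;> omega)
  have h12 := opb 9 _ _ _ _ h11 4 5 3 6 (z - 6) (by decide) (by decide) (by decide)
    [(0, 5, 6), (4, 0, 7), (6, 4, 7)]
    (fun n => [α + s + 3 * D - 7, D, x, D, x + z - 5, z - 1, 7, 5, D].getD n 0) (by decide)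
    (by intro n hn; interval_cases n <;> simp <;> omega)
  have h13 := opb 9 _ _ _ _ h12 4 7 6 0 (y - 5) (by decide) (by decide) (by decide)
    [(0, 5, 6)]
    (fun n => [α + s + 3 * D - 6, D, x, D, x + y + z - 10, z - 1, 8, y, D].getD n 0) (by decide)
    (by intro n hn; interval_cases n <;> simp <;> omega)
  have h14 := ope 9 _ _ _ _ h13 3 (fun i => if i = 0 then 0 else i + 4) [(0, 1, 2)]
    ((if false then [1] else []) ++ (if true then [2] else []))
    (fun n => if n = 0 then α + s + 3 * D - 6 else if n = 1 then z - 1 else 8)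
    (by intro i hi; interval_cases i <;> simp)
    (by intro i j hi hj; interval_cases i <;> interval_cases j <;> simp)
    (by decide)
    (by intro i hi; interval_cases i <;> decide)
    (by intro i hi; interval_cases i <;> simp)
  have h15 : ((Finset.range 9).filter (fun n => ∀ i, i < 3 →
      (if i = 0 then 0 else i + 4) ≠ n)) = {1, 2, 3, 4, 7, 8} := by
    decide
  have h16 : M + {(dz + 1, mz)} + Multiset.replicate s (4, false) +
      {(db + 1 + s + 1, mb)} + Multiset.replicate (D - 6) (4, false) +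
      Multiset.replicate (D - 3 + 1) (4, false) + Multiset.replicate (D - 7 + 1) (4, false) +
      Multiset.replicate (x - 5 + 1) (4, false) + Multiset.replicate (z - 6 + 1) (4, false) +
      Multiset.replicate (y - 5 + 1) (4, false) +
      ((Finset.range 9).filter (fun n => ∀ i, i < 3 →
        (if i = 0 then 0 else i + 4) ≠ n)).val.map
        (fun n => ([α + s + 3 * D - 6, D, x, D, x + y + z - 10, z - 1, 8, y, D].getD n 0,
          decide (n ∈ ([6, 7, 8, 1, 2, 3] : List ℕ)))) =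
      M + {(dz + 1, mz), (db + s + 2, mb), (D, true), (D, true), (D, true), (x, true), (y, true),
        (x + y + z - 10, false)} + Multiset.replicate (s + 3 * D + x + y + z - 27) (4, false) := by
    rw [h15]
    have h17 : ({1, 2, 3, 4, 7, 8} : Finset ℕ).val.map
        (fun n => (([α + s + 3 * D - 6, D, x, D, x + y + z - 10, z - 1, 8, y, D] : List ℕ).getD n 0,
          decide (n ∈ ([6, 7, 8, 1, 2, 3] : List ℕ)))) =
        ({(D, true)} + {(x, true)} + {(D, true)} + {(x + y + z - 10, false)} + {(y, true)} +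
          {(D, true)} : Multiset (ℕ × Bool)) := rfl
    have h18 : s + 3 * D + x + y + z - 27 = s + (D - 6) + (D - 3 + 1) + (D - 7 + 1) + (x - 5 + 1) +
        (z - 6 + 1) + (y - 5 + 1) := by omega
    have h19 : db + 1 + s + 1 = db + s + 2 := by omega
    rw [h17, h18, h19]
    simp only [Multiset.insert_eq_cons, Multiset.replicate_add, ← Multiset.singleton_add]
    abel
  unfold St
  rw [← h16]
  refine Eq.mp ?_ h14
  congr

end Pool.Agent.PDM.H82
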