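import Pool.Agent.PDM.Stmts

/-!
# PDM, row PTH: subdivide an edge by `L` vertices
-/

set_option autoImplicit false

namespace Pool.Agent.PDM.H82

open Pool.Agent.PDN

/-- the statement with the invariant -/
theorem pth_aux (hsub : SubStmt) (V : Type) [Fintype V] (T : Tri V) (u v a a' : V)
    (hua : T.f u v a) (hva : T.f v u a') (haa : a ≠ a') (hcon : T.graph.Connected) (L : ℕ) :
    ∃ (W : Type) (_ : Fintype W) (T' : Tri W) (ι : V ↪ W) (b : W),
      (∀ x y z, T.f x y z → ¬ ((u = x ∨ u = y ∨ u = z) ∧ (v = x ∨ v = y ∨ v = z)) →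
        T'.f (ι x) (ι y) (ι z)) ∧
      T'.deg (ι a) = T.deg a + L ∧ T'.deg (ι a') = T.deg a' + L ∧
      (∀ x, x ≠ a → x ≠ a' → T'.deg (ι x) = T.deg x) ∧
      (∀ w, w ∉ Set.range ι → T'.deg w = 4) ∧
      Nat.card W = Nat.card V + L ∧ T'.graph.Connected ∧
      T'.f (ι u) b (ι a) ∧ T'.f b (ι u) (ι a') ∧ (b = ι v ∨ b ∉ Set.range ι) := by
  induction L with
  | zero =>
    exact ⟨V, inferInstance, T, Function.Embedding.refl V, v, fun x y z h _ => h, rfl, rfl,
      fun x _ _ => rfl, fun w hw => absurd ⟨w, rfl⟩ hw, rfl, hcon, hua, hva, Or.inl rfl⟩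
  | succ L ih =>
    obtain ⟨W, hW, T', ι, b, h1, h2, h3, h4, h5, h6, h7, h8, h9, h10⟩ := ih
    obtain ⟨T'', k1, k2, k3, k4, k5, k6, k7, k8, k9, k10⟩ :=
      hsub W T' (ι u) b (ι a) (ι a') h8 h9 (fun h => haa (ι.injective h))
    refine ⟨Option W, inferInstance, T'', ι.trans Function.Embedding.some, none, ?_, ?_, ?_, ?_,
      ?_, ?_, k10 h7, k2, k5, Or.inr ?_⟩
    · intro x y z hf hn
      refine k1 _ _ _ (h1 x y z hf hn) ?_
      rintro ⟨hu, hb⟩
      apply hn
      have hu' : u = x ∨ u = y ∨ u = z := by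
        rcases hu with h | h | h
        · exact Or.inl (ι.injective h)
        · exact Or.inr (Or.inl (ι.injective h))
        · exact Or.inr (Or.inr (ι.injective h))
      refine ⟨hu', ?_⟩
      rcases h10 with h | h
      · rw [h] at hb
        rcases hb with h | h | h
        · exact Or.inl (ι.injective h)
        · exact Or.inr (Or.inl (ι.injective h))
        · exact Or.inr (Or.inr (ι.injective h))
      · exfalso
        rcases hb with h' | h' | h'
        · exact h ⟨_, h'.symm⟩
        · exact h ⟨_, h'.symm⟩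
        · exact h ⟨_, h'.symm⟩
    · change T''.deg (some (ι a)) = _
      rw [k7, h2]
      omega
    · change T''.deg (some (ι a')) = _
      rw [k8, h3]
      omega
    · intro x hx hx'
      change T''.deg (some (ι x)) = _
      rw [k6 _ (fun h => hx (ι.injective h)) (fun h => hx' (ι.injective h)), h4 x hx hx']
    · intro w hw
      cases w with
      | none => exact k9
      | some w =>
        have hw' : w ∉ Set.range ι := by
          rintro ⟨x, hx⟩
          exact hw ⟨x, by change some (ι x) = some w; rw [hx]⟩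
        rw [k6 w (fun h => hw' ⟨a, h.symm⟩) (fun h => hw' ⟨a', h.symm⟩)]
        exact h5 w hw'
    · rw [Finite.card_option, h6]
      omega
    · rintro ⟨x, hx⟩
      exact absurd hx (by change some (ι x) ≠ none; exact Option.some_ne_none _)

/-- row PTH -/
theorem pth (hsub : SubStmt) : PthStmt := by
  intro V _ T u v a a' L hua hva haa hcon
  obtain ⟨W, hW, T', ι, b, h1, h2, h3, h4, h5, h6, h7, _, _, _⟩ :=
    pth_aux hsub V T u v a a' hua hva haa hcon L
  exact ⟨W, hW, T', ι, h1, h2, h3, h4, h5, h6, h7⟩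

end Pool.Agent.PDM.H82
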